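import Pool.Agent.Q255.SV.Up
import Pool.Agent.Q255.SV.Gen3
import Pool.Agent.Q255.L2.Eng

/-!
# The exact exponent of random twists at a given level of information, for every form

Let `f` be completely multiplicative with the values `1`, `-1` at the primes. The signs at the primes may have any
joint law whatsoever; `I(x)` is the relative entropy (Kullback-Leibler divergence) of the law of the signs `f(p)`,
`p ≤ x`, to independent fair signs.

1. Let `(T_i, a_i)` be any family of numbers `T_i ≥ 1` (conductors) and sequences of complex coefficients, at most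
`A X^A` members with `T_i ≤ X`, with the Ramanujan bound `|a_i(n)| ≤ C (n T_i)^ε` for every `ε > 0`. If
`I(x) ≤ x^{δ+o(1)}`, then almost surely, for all `f'` equal to `f` at all but finitely many primes and all `ε > 0`,
`|∑_{n ≤ N} a_i(n) f'(n) n^{-1/2-it}| ≤ C N^{δ/2} (N T_i (1 + |t|))^ε` for all members, all `N ≥ 1` and all real `t`
(trivial bound: `N^{1/2}`; the Lindelöf bound if `δ = 0`).
2. The exponent is exact for EVERY Euler product of EVERY degree `m` with Satake parameters of absolute value at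
most `1` and `∑_p |Re a(p)|/p = ∞`, for every `0 < δ < 1`: for some law with `I(x) ≤ C x^δ` almost surely, for all these
`f'`, all real `t` and all `η > 0` the same sums are not `O(N^{δ/2-η})`.
-/

set_option autoImplicit false

namespace Pool.Agent.Results.MP_21d687_nt.ExactExponentForEveryForm

open Finset Filter Topology MeasureTheory

/-- the sign at the prime with the number `k` (`2` has the number `0`) -/
def sign (ω : ℕ → Bool) (k : ℕ) : ℝ := if ω k then 1 else -1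

/-- `f(n) = ∏_p f(p)^{v_p(n)}`, the completely multiplicative function with the sign `ω k` at the prime with the
number `k` (`Nat.count Nat.Prime p` is the number of the primes less than `p`) -/
noncomputable def f (ω : ℕ → Bool) (n : ℕ) : ℝ :=
  n.factorization.prod fun p j => sign ω (Nat.count Nat.Prime p) ^ j

/-- `I(x)`: the relative entropy `∑_s q(s) log (2^n q(s))` of the law `q` of the signs at the `n = π(x)` primes
`p ≤ x` to independent fair signs, in nats -/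
noncomputable def information (ν : Measure (ℕ → Bool)) (x : ℕ) : ℝ :=
  ∑ s : Fin (Nat.primeCounting x) → Bool, ν.real {ω | ∀ k : Fin (Nat.primeCounting x), ω k = s k} *
    Real.log (2 ^ Nat.primeCounting x *
      ν.real {ω | ∀ k : Fin (Nat.primeCounting x), ω k = s k})

/-- `I(x) ≤ x^{δ + o(1)}` -/
def InformationExponentAtMost (ν : Measure (ℕ → Bool)) (δ : ℝ) : Prop :=
  ∀ ε : ℝ, 0 < ε → ∀ᶠ x : ℕ in atTop, information ν x ≤ (x : ℝ) ^ (δ + ε)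

/-- the partial sum `∑_{n ≤ N} a(n) f(n) n^{-1/2-it}` of the twisted Dirichlet series on the critical line -/
noncomputable def twist (a : ℕ → ℂ) (ω : ℕ → Bool) (N : ℕ) (t : ℝ) : ℂ :=
  ∑ n ∈ Icc 1 N, a n * (f ω n : ℂ) * (n : ℂ) ^ (-(1 / 2 : ℂ) - t * Complex.I)

/-- `a` is the sequence of the coefficients of a tempered Euler product `∏_p ∏_j (1 - α_j(p) p^{-s})^{-1}` of
degree `m`: `|α_j(p)| ≤ 1`, `a` is multiplicative, `a(p) = ∑_j α_j(p)` and `∑_k a(p^k) z^k = ∏_j (1 - α_j(p) z)^{-1}` for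
`|z| < 1`; and `|a(n)| ≤ C n^ε` for every `ε > 0` -/
def TemperedEulerProduct (m : ℕ) (a : ℕ → ℂ) : Prop :=
  (∃ α : ℕ → Fin m → ℂ, (∀ p j, ‖α p j‖ ≤ 1) ∧ a 1 = 1 ∧ (∀ u v : ℕ, Nat.Coprime u v → a (u * v) = a u * a v) ∧
    (∀ p : ℕ, p.Prime → a p = ∑ j, α p j) ∧
    ∀ p : ℕ, p.Prime → ∀ z : ℂ, ‖z‖ < 1 →
      HasSum (fun k : ℕ => a (p ^ k) * z ^ k) (∏ j, (1 - α p j * z)⁻¹)) ∧
  ∀ ε : ℝ, 0 < ε → ∃ C : ℝ, ∀ n : ℕ, 1 ≤ n → ‖a n‖ ≤ C * (n : ℝ) ^ ε

/-! ## Translation -/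

open Pool.Agent.Q255.EP

theorem info_eq (ν : Measure (ℕ → Bool)) [IsProbabilityMeasure ν] (x : ℕ) :
    information ν x = Pool.Agent.Q255.IR.D ν (Nat.primeCounting x) := D_eq_sum ν _

theorem IL_of {ν : Measure (ℕ → Bool)} [IsProbabilityMeasure ν] {δ : ℝ} (h : InformationExponentAtMost ν δ) :
    IL ν δ := by
  intro ε hε
  have := h ε hε
  simpa only [info_eq] using this

/-- the real and the imaginary parts of the coefficients -/
def part (a : ℕ → ℂ) (b : Bool) (n : ℕ) : ℝ := if b then (a n).re else (a n).im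

theorem part_le (a : ℕ → ℂ) (b : Bool) (n : ℕ) : |part a b n| ≤ ‖a n‖ := by
  unfold part
  split_ifs
  · exact Complex.abs_re_le_norm (a n)
  · exact Complex.abs_im_le_norm (a n)

theorem fam_pair {ι : Type} {T : ι → ℝ} {A : ℝ} (hT : ∀ i, 1 ≤ T i)
    (hA : ∀ X : ℝ, 1 ≤ X → {i | T i ≤ X}.Finite ∧ ({i | T i ≤ X}.ncard : ℝ) ≤ A * X ^ A) :
    ∃ A' : ℝ, Pool.Agent.Q255.L2.Fam (fun q : ι × Bool => T q.1) A' := by
  have hmax : ∀ X : ℝ, 1 ≤ X → A * X ^ A ≤ max A 1 * X ^ max A 1 := fun X hX => by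
    have h1 : X ^ A ≤ X ^ max A 1 := Real.rpow_le_rpow_of_exponent_le hX (le_max_left _ _)
    have h2 : 0 ≤ X ^ A := by positivity
    calc A * X ^ A ≤ max A 1 * X ^ A := mul_le_mul_of_nonneg_right (le_max_left _ _) h2
      _ ≤ max A 1 * X ^ max A 1 := mul_le_mul_of_nonneg_left h1 (zero_le_one.trans (le_max_right _ _))
  refine ⟨2 * max A 1, fun q => hT q.1, fun X hX => ?_⟩
  have hset : {q : ι × Bool | T q.1 ≤ X} = {i | T i ≤ X} ×ˢ (Set.univ : Set Bool) := by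
    ext q
    simp
  obtain ⟨hf, hc⟩ := hA X hX
  have hm1 : 1 ≤ max A 1 := le_max_right _ _
  refine ⟨by rw [hset]; exact hf.prod Set.finite_univ, ?_⟩
  rw [hset, Set.ncard_prod]
  have h2 : (Set.univ : Set Bool).ncard = 2 := by
    rw [Set.ncard_univ, Nat.card_eq_fintype_card, Fintype.card_bool]
  rw [h2]
  push_cast
  have h3 : X ^ max A 1 ≤ X ^ (2 * max A 1) := Real.rpow_le_rpow_of_exponent_le hX (by linarith)
  calc ({i | T i ≤ X}.ncard : ℝ) * 2 ≤ (max A 1 * X ^ max A 1) * 2 :=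
        mul_le_mul_of_nonneg_right (hc.trans (hmax X hX)) (by norm_num)
    _ ≤ (max A 1 * X ^ (2 * max A 1)) * 2 :=
        mul_le_mul_of_nonneg_right (mul_le_mul_of_nonneg_left h3 (by linarith)) (by norm_num)
    _ = 2 * max A 1 * X ^ (2 * max A 1) := by ring

theorem twist_split (a : ℕ → ℂ) (ω : ℕ → Bool) (N : ℕ) (t : ℝ) :
    twist a ω N t =
      (∑ n ∈ Icc 1 N, ((part a true n * f ω n : ℝ) : ℂ) * (n : ℂ) ^ (-(1 / 2 : ℂ) - t * Complex.I)) +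
      Complex.I *
        ∑ n ∈ Icc 1 N, ((part a false n * f ω n : ℝ) : ℂ) * (n : ℂ) ^ (-(1 / 2 : ℂ) - t * Complex.I) := by
  unfold twist
  rw [mul_sum, ← sum_add_distrib]
  refine sum_congr rfl fun n _ => ?_
  have h : a n = ((part a true n : ℝ) : ℂ) + Complex.I * ((part a false n : ℝ) : ℂ) := by
    simp only [part, if_true, Bool.false_eq_true, if_false]
    rw [mul_comm]
    exact (Complex.re_add_im (a n)).symm
  push_cast
  linear_combination ((f ω n : ℂ) * (n : ℂ) ^ (-(1 / 2 : ℂ) - t * Complex.I)) * h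

theorem upper (ν : Measure (ℕ → Bool)) [IsProbabilityMeasure ν] (δ : ℝ) (hδ : 0 ≤ δ)
    (hν : InformationExponentAtMost ν δ) (ι : Type) (T : ι → ℝ) (a : ι → ℕ → ℂ) (A : ℝ) (hT : ∀ i, 1 ≤ T i)
    (hA : ∀ X : ℝ, 1 ≤ X → {i | T i ≤ X}.Finite ∧ ({i | T i ≤ X}.ncard : ℝ) ≤ A * X ^ A)
    (ha : ∀ ε : ℝ, 0 < ε → ∃ C : ℝ, ∀ (i : ι) (n : ℕ), 1 ≤ n → ‖a i n‖ ≤ C * ((n : ℝ) * T i) ^ ε) :
    ∀ᵐ ω ∂ν, ∀ ω' : ℕ → Bool, {k | ω' k ≠ ω k}.Finite → ∀ ε : ℝ, 0 < ε → ∃ C : ℝ,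
      ∀ (i : ι) (N : ℕ) (t : ℝ), 1 ≤ N →
        ‖twist (a i) ω' N t‖ ≤ C * ((N : ℝ) * T i * (1 + |t|)) ^ ε * (N : ℝ) ^ (δ / 2) := by
  obtain ⟨A', hA'⟩ := fam_pair hT hA
  refine ae_fin Pool.Agent.Q14.EP.t_FIN hδ (fun ν' _ hν' => ?_) ν (IL_of hν)
  have h := Pool.Agent.Q255.SV.la_sup Pool.Agent.Q190.EP.t_ENG ν' δ hδ hν' (ι × Bool)
    (fun q => T q.1) (fun q => part (a q.1) q.2) A' hA' (fun ε hε => by
      obtain ⟨C, hC⟩ := ha ε hε
      exact ⟨C, fun q n hn => (part_le _ _ _).trans (hC q.1 n hn)⟩)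
  filter_upwards [h] with ω hω ε hε
  obtain ⟨C, hC⟩ := hω ε hε
  refine ⟨2 * C, fun i N t hN => ?_⟩
  have h1 := hC (i, true) N t hN
  have h2 := hC (i, false) N t hN
  show ‖twist (a i) ω N t‖ ≤ _
  rw [twist_split]
  calc _ ≤ ‖∑ n ∈ Icc 1 N, ((part (a i) true n * f ω n : ℝ) : ℂ) *
          (n : ℂ) ^ (-(1 / 2 : ℂ) - t * Complex.I)‖ +
        ‖Complex.I * ∑ n ∈ Icc 1 N, ((part (a i) false n * f ω n : ℝ) : ℂ) *
          (n : ℂ) ^ (-(1 / 2 : ℂ) - t * Complex.I)‖ := norm_add_le _ _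
    _ ≤ C * ((N : ℝ) * T i * (1 + |t|)) ^ ε * (N : ℝ) ^ (δ / 2) +
          C * ((N : ℝ) * T i * (1 + |t|)) ^ ε * (N : ℝ) ^ (δ / 2) := by
        rw [norm_mul, Complex.norm_I, one_mul]
        exact add_le_add h1 h2
    _ = 2 * C * ((N : ℝ) * T i * (1 + |t|)) ^ ε * (N : ℝ) ^ (δ / 2) := by ring

/-- **The exact exponent of random twists at a given level of information, for every form.**

1. `I(x) ≤ x^{δ+o(1)}`, `δ ≥ 0`, a family of polynomial size with the Ramanujan bound: almost surely, for every `f'` equal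
to `f` at all but finitely many primes and every `ε > 0`, there is `C` with
`|∑_{n ≤ N} a_i(n) f'(n) n^{-1/2-it}| ≤ C (N T_i (1 + |t|))^ε N^{δ/2}` for all `i`, all `N ≥ 1` and all real `t`.
2. For every degree `m`, every tempered Euler product `a` of degree `m` with `∑_p |Re a(p)|/p = ∞` and every `0 < δ < 1`
there is a law with `I(x) ≤ C x^δ` for which almost surely, for all these `f'`, all real `t` and all `η > 0`,
`∑_{n ≤ N} a(n) f'(n) n^{-1/2-it}` is not `O(N^{δ/2-η})`. -/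
theorem result :
    (∀ (ν : Measure (ℕ → Bool)) [IsProbabilityMeasure ν] (δ : ℝ), 0 ≤ δ → InformationExponentAtMost ν δ →
      ∀ (ι : Type) (T : ι → ℝ) (a : ι → ℕ → ℂ) (A : ℝ), (∀ i, 1 ≤ T i) →
        (∀ X : ℝ, 1 ≤ X → {i | T i ≤ X}.Finite ∧ ({i | T i ≤ X}.ncard : ℝ) ≤ A * X ^ A) →
        (∀ ε : ℝ, 0 < ε → ∃ C : ℝ, ∀ (i : ι) (n : ℕ), 1 ≤ n → ‖a i n‖ ≤ C * ((n : ℝ) * T i) ^ ε) →
        ∀ᵐ ω ∂ν, ∀ ω' : ℕ → Bool, {k | ω' k ≠ ω k}.Finite → ∀ ε : ℝ, 0 < ε → ∃ C : ℝ,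
          ∀ (i : ι) (N : ℕ) (t : ℝ), 1 ≤ N →
            ‖twist (a i) ω' N t‖ ≤ C * ((N : ℝ) * T i * (1 + |t|)) ^ ε * (N : ℝ) ^ (δ / 2)) ∧
    (∀ (m : ℕ) (a : ℕ → ℂ), TemperedEulerProduct m a →
      (¬ Summable fun p : Nat.Primes => |(a p).re| / ((p : ℕ) : ℝ)) → ∀ δ : ℝ, 0 < δ → δ < 1 →
        ∃ ν : Measure (ℕ → Bool), IsProbabilityMeasure ν ∧
          (∃ C : ℝ, ∀ x : ℕ, 1 ≤ x → information ν x ≤ C * (x : ℝ) ^ δ) ∧
          ∀ᵐ ω ∂ν, ∀ ω' : ℕ → Bool, {k | ω' k ≠ ω k}.Finite → ∀ t η : ℝ, 0 < η →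
            ¬ ∃ C : ℝ, ∀ N : ℕ, 1 ≤ N → ‖twist a ω' N t‖ ≤ C * (N : ℝ) ^ (δ / 2 - η)) := by
  refine ⟨fun ν _ δ hδ hν ι T a A hT hA ha => upper ν δ hδ hν ι T a A hT hA ha, ?_⟩
  rintro m a ⟨⟨α, h1, h2, h3, h4, h5⟩, h6⟩ hdiv δ hδ0 hδ1
  obtain ⟨C, hC⟩ := h6 (1 / 4) (by norm_num)
  obtain ⟨ν, hν, hD, hae⟩ := Pool.Agent.Q255.SV.sharp_gen ⟨h1, h2, h3, h4, h5⟩ hC hdiv hδ0 hδ1
  exact ⟨ν, hν, ⟨δ⁻¹, fun x _ => by rw [info_eq]; exact hD x⟩, hae⟩

end Pool.Agent.Results.MP_21d687_nt.ExactExponentForEveryForm
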