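import Pool.Agent.Y19.QT.ML
import Pool.Agent.Q1.LF.Met

/-!
# The Lindelöf bound with powers of logarithms for the quadratic twists over all multiquadratic fields, and
# the Lindelöf bound for the twists by the integer parts `⌊α u_k⌋`

`E : y² = x³ + a x + b` is an elliptic curve over `ℚ`, `K` a multiquadratic field of degree `2ⁿ` (`n = 0`:
`K = ℚ`), `π` the representation of `PGL₂` of the adeles of `K` attached to `E`; `L(s, π ⊗ χ_d) = L(E_d/K, s + 1/2)`.
`F_d(s)` is `L(E_d/K, s)` without the Euler factors at the places dividing `2 (4a³ + 27b²) d ∏ e_i` (centre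
`s = 1`; `K` is generated by square roots of the integers `e_i`), an entire function.  `|d| ^ 2ⁿ` is the norm of `d`
(the quantity `|d|_{S_∞}`), so that `β = 0` is beyond the conjecture, `β > 0` small is the Lindelöf hypothesis and
`β = 1/2` is the exponent of the convexity bound.

Part I (`MultiLindelofLaw`, a theorem of the starting library, module `Pool.Agent.Y19.QT.ML`, which was not
handed in):

* `∑_{|d| ≤ X} |F_d(1 + i t_d)|^(2 / 2ⁿ) / (2 + |t_d|)^B ≤ C X (log X)^A`, uniformly in the real numbers `t_d`.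
* For every `β ≥ 0` at most `C X^(1 - 2 β / 2ⁿ) (log X)^A` of the `|d| ≤ X` have
  `|F_d(1 + i t)| > X^β (2 + |t|)^B` for some real `t`.
* For every `k` there is a `k'` such that for all `|d| ≤ X` except `O(X / (log X)^k)` and all real `t` one has
  `|F_d(1 + i t)| ≤ ((log X) (2 + |t|))^k'`.

Part II (`SequenceLaw`, new).  There is a `B`, which depends only on `a`, `b`, `K`, with the following properties.

* (Every sequence.)  Let `β ≥ 0`, `θ > 1 - 2 β`, `s > max(θ, 0)` and let `u_k > 0` be reals with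
  `∑ u_k ^ (θ - s) < ∞`.  The set of the real numbers `α ≠ 0` such that for infinitely many `k` the integer
  `d = ⌊α u_k⌋` is squarefree and `|F_d(1 + i t)| > (|d| ^ 2ⁿ) ^ β (2 + |t|) ^ B` for some real `t` has
  `s`-dimensional Hausdorff measure zero.
* If `u_k` grows faster than every power of `k`, then this set of `α` has Hausdorff dimension at most `1 - 2 β`; and
  for almost all real `α` the Lindelöf bound holds along the sequence: for all `β > 0`, for all large `k` with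
  `d = ⌊α u_k⌋` squarefree and all real `t`, `|F_d(1 + i t)| ≤ (|d| ^ 2ⁿ) ^ β (2 + |t|) ^ B`.
* There is an `M` which depends only on `a`, `b`, `K` such that for EVERY sequence `u_k → ∞` (of any rate of growth)
  and almost all real `α`, for all large `k` with `d = ⌊α u_k⌋` squarefree and all real `t`,
  `|F_d(1 + i t)| ≤ (k (log |d|) (2 + |t|)) ^ M`; this is a power of `(log |d|) (2 + |t|)` if `u_k ≥ exp (k ^ κ)`.

This holds without any hypothesis for all `E` with `j`-invariant `0` or `1728` and for all quadratic twists of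
`X₀(11)` and `X₀(14)`, and for every elliptic curve over `ℚ` whose quadratic twists are modular.

The proof combines the moment bound `MultiLindelofLaw` (project QT of the starting library, module
`Pool.Agent.Y19.QT.ML`) with Borel–Cantelli arguments.
-/

set_option autoImplicit false

namespace Pool.Agent.Results.MP_21d687_nt.LindelofAndIntegerParts

open Complex NumberField Filter Topology MeasureTheory Set
open scoped ENNReal NNReal
open Pool.Agent.Y19.QT

/-- the real numbers `α ≠ 0` such that for infinitely many `k` the integer `d = ⌊α u_k⌋` is squarefree and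
`|F_d(1 + i t)| > (|d| ^ N) ^ β (2 + |t|) ^ B` for some real `t` -/
def Exceptional (N : ℕ) (F : ℤ → ℂ → ℂ) (u : ℕ → ℝ) (β : ℝ) (B : ℕ) : Set ℝ :=
  {α | α ≠ 0 ∧ ∃ᶠ k in atTop, Squarefree ⌊α * u k⌋ ∧ ∃ t : ℝ,
    (|(⌊α * u k⌋ : ℝ)| ^ N) ^ β * (2 + |t|) ^ B < ‖F ⌊α * u k⌋ (1 + t * I)‖}

/-- the bounds for the twists by the integer parts `⌊α u_k⌋`, over all multiquadratic fields -/
def SequenceLaw (a b : ℤ) : Prop :=
  ∀ (n : ℕ) (e : Fin n → ℤ), Indep e → ∀ (K : Type) [Field K] [NumberField K] (x : Fin n → K),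
    (∀ i, x i ^ 2 = (e i : K)) → IntermediateField.adjoin ℚ (Set.range x) = ⊤ →
    (∀ d : ℤ, Squarefree d → ∃! F : ℂ → ℂ, IsLFunK K (a * d ^ 2) (b * d ^ 3) (∏ i, e i) F) ∧
    ∀ F : ℤ → ℂ → ℂ, (∀ d : ℤ, Squarefree d →
      IsLFunK K (a * d ^ 2) (b * d ^ 3) (∏ i, e i) (F d)) →
      (∃ B : ℕ,
        (∀ (β θ s : ℝ) (u : ℕ → ℝ), 0 ≤ β → 1 - 2 * β < θ → θ < s → 0 < s → (∀ k, 0 < u k) →
          Summable (fun k => u k ^ (θ - s)) → μH[s] (Exceptional (2 ^ n) F u β B) = 0) ∧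
        ∀ u : ℕ → ℝ, (∀ k, 0 < u k) → (∀ A : ℝ, ∀ᶠ k : ℕ in atTop, (k : ℝ) ^ A ≤ u k) →
          (∀ β : ℝ, 0 ≤ β → dimH (Exceptional (2 ^ n) F u β B) ≤ ENNReal.ofReal (1 - 2 * β)) ∧
          ∀ᵐ α : ℝ, ∀ β : ℝ, 0 < β → ∀ᶠ k in atTop, Squarefree ⌊α * u k⌋ → ∀ t : ℝ,
            ‖F ⌊α * u k⌋ (1 + t * I)‖ ≤ (|(⌊α * u k⌋ : ℝ)| ^ 2 ^ n) ^ β * (2 + |t|) ^ B) ∧
      ∃ M : ℕ, ∀ u : ℕ → ℝ, (∀ k, 0 < u k) → Tendsto u atTop atTop →
        ∀ᵐ α : ℝ, ∀ᶠ k : ℕ in atTop, Squarefree ⌊α * u k⌋ → ∀ t : ℝ,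
          ‖F ⌊α * u k⌋ (1 + t * I)‖ ≤ (k * Real.log |(⌊α * u k⌋ : ℝ)| * (2 + |t|)) ^ M

theorem sequenceLaw_of {a b : ℤ} (h : MultiLindelofLaw a b) : SequenceLaw a b := by
  intro n e he K _ _ x hx hK
  obtain ⟨h1, h2⟩ := h n e he K x hx hK
  refine ⟨h1, fun F hF => ?_⟩
  obtain ⟨⟨C, A, B, hmom, -⟩, -⟩ := h2 F hF
  have hN : 1 ≤ 2 ^ n := Nat.one_le_two_pow
  have hmom' : ∀ (X : ℕ) (t : ℤ → ℝ), 3 ≤ X →
      ∑ d ∈ sqf X, (fun (d : ℤ) (t : ℝ) => ‖F d (1 + t * I)‖) d (t d) ^ ((2 : ℝ) / ((2 ^ n : ℕ) : ℝ)) /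
        (2 + |t d|) ^ B ≤ C * X * Real.log X ^ A := by
    intro X t hX
    push_cast
    exact hmom X t hX
  have hf : ∀ (d : ℤ) (t : ℝ), 0 ≤ (fun (d : ℤ) (t : ℝ) => ‖F d (1 + t * I)‖) d t :=
    fun d t => norm_nonneg _
  refine ⟨⟨B * 2 ^ n, ?_, ?_⟩, ?_⟩
  · intro β θ s u hβ hθ hs hs0 hu hsum
    exact Pool.Agent.Q1.LF.exc_null hN hmom' hf hβ hθ hs hs0 u hu hsum
  · intro u hu hsup
    refine ⟨fun β hβ => ?_, ?_⟩
    · exact Pool.Agent.Q1.LF.exc_dim hN hmom' hf hβ u hu hsup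
    · exact Pool.Agent.Q1.LF.ae_all hN hmom' hf u hu hsup
  · exact Pool.Agent.Q1.LF.ae_any hN hmom' hf

theorem result : (∀ a b : ℤ, Fam a b → MultiLindelofLaw a b ∧ SequenceLaw a b) ∧
    ∀ a b : ℤ, 4 * a ^ 3 + 27 * b ^ 2 ≠ 0 → TwistsModular a b → MultiLindelofLaw a b ∧ SequenceLaw a b :=
  ⟨fun _ _ h => ⟨multiLindelof_fam h, sequenceLaw_of (multiLindelof_fam h)⟩,
    fun _ _ hab h => ⟨multiLindelof_modular hab h, sequenceLaw_of (multiLindelof_modular hab h)⟩⟩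

end Pool.Agent.Results.MP_21d687_nt.LindelofAndIntegerParts
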