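import Pool.Agent.Y19.QT.ML
import Pool.Agent.Q138.PS.XD
import Pool.Agent.Q138.PS.YM

/-!
# The Lindelöf bound for ALL quadratic twists `d` close to `± c k ^ j α ^ k`

`E : y² = x³ + a x + b` is an elliptic curve over `ℚ`, `K` a multiquadratic field of degree `2ⁿ` (`n = 0`: `K = ℚ`), `π` the
representation of `PGL₂` of the adeles of `K` attached to `E`; `L(s, π ⊗ χ_d) = L(E_d/K, s + 1/2)`.  `F_d(s)` is `L(E_d/K, s)`
without the Euler factors at the places dividing `2 (4a³ + 27b²) d ∏ e_i` (centre `s = 1`; `K` is generated by square roots of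
the integers `e_i`), an entire function; `|d| ^ 2ⁿ` is the norm of `d`.

(1) There is a `B`, which depends only on `a`, `b`, `K`, such that for all `β ≥ 0`, `l < 1` and all real `α > 1` outside a set of
Hausdorff dimension at most `max(0, 1 - 2 β) / (1 - l)`, all algebraic `c > 0`, all integers `j`, all real `D` and all large `k`: for
EVERY squarefree integer `d` with `| |d| - c k ^ j α ^ k | ≤ D (c k ^ j α ^ k) ^ l` and all real `t` one has
`|F_d(1 + i t)| ≤ (|d| ^ 2ⁿ) ^ β (2 + |t|) ^ B`.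
(2) For almost all `α > 1` and all natural `κ` there is an `M` such that for all `c`, `j`, `D` and all large `k`: for EVERY squarefree `d`
with `| |d| - c k ^ j α ^ k | ≤ D k ^ κ` and all real `t` one has `|F_d(1 + i t)| ≤ ((log |d|) (2 + |t|)) ^ M`.

This holds without any hypothesis for all `E` with `j`-invariant `0` or `1728` and for all quadratic twists of `X₀(11)` and `X₀(14)`,
and for every elliptic curve over `ℚ` whose quadratic twists are modular.

Input: the moment bound `MultiLindelofLaw` (project QT of the starting library, module `Pool.Agent.Y19.QT.ML`).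
-/

set_option autoImplicit false

namespace Pool.Agent.Results.MP_21d687_nt.LindelofNearPowers

open Complex NumberField Filter Topology MeasureTheory Set
open Pool.Agent.Y19.QT
open Pool.Agent.Q138.PS (NearPow ClosePow)

/-- the bounds for all twists `d` in windows around `± c k ^ j α ^ k`, over all multiquadratic fields -/
def PowerLaw (a b : ℤ) : Prop :=
  ∀ (n : ℕ) (e : Fin n → ℤ), Indep e → ∀ (K : Type) [Field K] [NumberField K] (x : Fin n → K),
    (∀ i, x i ^ 2 = (e i : K)) → IntermediateField.adjoin ℚ (Set.range x) = ⊤ →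
    (∀ d : ℤ, Squarefree d → ∃! F : ℂ → ℂ, IsLFunK K (a * d ^ 2) (b * d ^ 3) (∏ i, e i) F) ∧
    ∀ F : ℤ → ℂ → ℂ, (∀ d : ℤ, Squarefree d →
      IsLFunK K (a * d ^ 2) (b * d ^ 3) (∏ i, e i) (F d)) →
      (∃ B : ℕ, ∀ β l : ℝ, 0 ≤ β → l < 1 → ∃ Z : Set ℝ, dimH Z ≤ ENNReal.ofReal (max 0 (1 - 2 * β) / (1 - l)) ∧
        ∀ α : ℝ, 1 < α → α ∉ Z → ∀ c : ℝ, 0 < c → IsAlgebraic ℚ c → ∀ (j : ℤ) (D : ℝ), ∀ᶠ k : ℕ in atTop,
          ∀ d : ℤ, Squarefree d → NearPow α c j D l k d.natAbs → ∀ t : ℝ,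
            ‖F d (1 + t * I)‖ ≤ (|(d : ℝ)| ^ 2 ^ n) ^ β * (2 + |t|) ^ B) ∧
      ∀ᵐ α : ℝ, 1 < α → ∀ κ : ℕ, ∃ M : ℕ, ∀ c : ℝ, 0 < c → IsAlgebraic ℚ c → ∀ (j : ℤ) (D : ℝ), ∀ᶠ k : ℕ in atTop,
        ∀ d : ℤ, Squarefree d → ClosePow α c j D κ k d.natAbs → ∀ t : ℝ,
          ‖F d (1 + t * I)‖ ≤ (Real.log |(d : ℝ)| * (2 + |t|)) ^ M

theorem powerLaw_of {a b : ℤ} (h : MultiLindelofLaw a b) : PowerLaw a b := by
  classical
  intro n e he K _ _ x hx hK
  obtain ⟨h1, h2⟩ := h n e he K x hx hK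
  refine ⟨h1, fun F hF => ?_⟩
  obtain ⟨⟨C, A, B, -, hcnt⟩, hlog⟩ := h2 F hF
  refine ⟨⟨B, fun β l hβ hl => ?_⟩, ?_⟩
  · obtain ⟨Bad, hBad⟩ : ∃ Bad : Set ℕ, Bad = {m : ℕ | ∃ d : ℤ, Squarefree d ∧ d.natAbs = m ∧ ∃ t : ℝ,
        (|(d : ℝ)| ^ 2 ^ n) ^ β * (2 + |t|) ^ B < ‖F d (1 + t * I)‖} := ⟨_, rfl⟩
    have hN : (0 : ℝ) < 2 ^ n := by positivity
    have hN1 : (1 : ℝ) ≤ 2 ^ n := one_le_pow₀ (by norm_num)
    have hcount := Pool.Agent.Q138.PS.count_halves_large Bad (max 0 (1 - 2 * β)) (le_max_left _ _) (fun ε hε => by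
      obtain ⟨β₁, hβ₁⟩ : ∃ β₁ : ℝ, β₁ = max 0 (2 ^ n * β - ε / 4) := ⟨_, rfl⟩
      have hβ10 : 0 ≤ β₁ := by rw [hβ₁]; exact le_max_left _ _
      have hβ1 : 2 ^ n * β - ε / 4 ≤ β₁ := by rw [hβ₁]; exact le_max_right _ _
      have hlogA := (isLittleO_log_rpow_rpow_atTop (A : ℝ) (show (0 : ℝ) < ε / 2 by linarith)).bound (show (0 : ℝ) < 1 by norm_num)
      have hlogA' := (tendsto_natCast_atTop_atTop (R := ℝ)).eventually hlogA
      have hT1 := ((tendsto_rpow_atTop (show (0 : ℝ) < ε / 4 by linarith)).comp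
        (tendsto_natCast_atTop_atTop (R := ℝ))).eventually_ge_atTop ((2 : ℝ) ^ (2 ^ n * β))
      refine ⟨|C|, ?_⟩
      filter_upwards [hlogA', hT1, eventually_ge_atTop 3] with T g1 g2 g3
      have hT3 : (3 : ℝ) ≤ T := by exact_mod_cast g3
      have hT0 : (0 : ℝ) < T := by linarith
      have hlT : 0 < Real.log T := Real.log_pos (by linarith)
      rw [Real.norm_of_nonneg (by positivity), Real.norm_of_nonneg (by positivity), one_mul, Real.rpow_natCast] at g1
      simp only [Function.comp_apply] at g2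
      -- comparison of the bounds
      have hcmp : ∀ y : ℝ, (T : ℝ) ≤ 2 * y → (T : ℝ) ^ β₁ ≤ (y ^ 2 ^ n) ^ β := by
        intro y hy
        have hy0 : 0 < y := by linarith
        have e1 : (y ^ 2 ^ n) ^ β = y ^ (2 ^ n * β : ℝ) := by
          rw [← Real.rpow_natCast, ← Real.rpow_mul hy0.le]
          push_cast
          rfl
        rw [e1]
        have e2 : ((T : ℝ) / 2) ^ (2 ^ n * β : ℝ) ≤ y ^ (2 ^ n * β : ℝ) :=
          Real.rpow_le_rpow (by positivity) (by linarith) (by positivity)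
        refine le_trans ?_ e2
        rw [hβ₁]
        rcases le_total (2 ^ n * β - ε / 4) 0 with h0 | h0
        · rw [max_eq_left h0, Real.rpow_zero]
          exact Real.one_le_rpow (by linarith) (by positivity)
        · rw [max_eq_right h0, Real.div_rpow hT0.le (by norm_num), le_div_iff₀ (by positivity)]
          calc (T : ℝ) ^ (2 ^ n * β - ε / 4) * 2 ^ (2 ^ n * β : ℝ) ≤ (T : ℝ) ^ (2 ^ n * β - ε / 4) * (T : ℝ) ^ (ε / 4) := by gcongr
            _ = (T : ℝ) ^ (2 ^ n * β) := by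
              rw [← Real.rpow_add hT0]
              congr 1
              ring
      obtain ⟨S, hS⟩ : ∃ S : Finset ℤ, S = (sqf T).filter (fun d => T ≤ 2 * d.natAbs ∧ ∃ t : ℝ,
        (T : ℝ) ^ β₁ * (2 + |t|) ^ B < ‖F d (1 + t * I)‖) := ⟨_, rfl⟩
      have h3 := hcnt T β₁ S g3 hβ10 (by rw [hS]; exact Finset.filter_subset _ _) (fun d hd => by
        rw [hS, Finset.mem_filter] at hd
        exact hd.2.2)
      have hsub : {m | m ∈ Bad ∧ m ≤ T ∧ T ≤ 2 * m} ⊆ (↑(S.image Int.natAbs) : Set ℕ) := by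
        rintro m ⟨h4, h5, h6⟩
        rw [hBad] at h4
        obtain ⟨d, hd1, hd2, t, hd3⟩ := h4
        rw [Finset.coe_image]
        refine ⟨d, ?_, hd2⟩
        rw [hS, Finset.mem_coe, Finset.mem_filter, mem_sqf]
        refine ⟨⟨by rw [Int.abs_eq_natAbs, hd2]; exact_mod_cast h5, hd1⟩, by omega, t, lt_of_le_of_lt ?_ hd3⟩
        have h7 : (|(d : ℝ)| : ℝ) = (m : ℝ) := by
          rw [← hd2, Nat.cast_natAbs, Int.cast_abs]
        rw [h7]
        refine mul_le_mul_of_nonneg_right (hcmp m (by exact_mod_cast h6)) (by positivity)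
      have h8 : (({m | m ∈ Bad ∧ m ≤ T ∧ T ≤ 2 * m}).ncard : ℝ) ≤ (S.card : ℝ) := by
        refine Nat.cast_le.2 ((Set.ncard_le_ncard hsub (Finset.finite_toSet _)).trans ?_)
        rw [Set.ncard_coe_finset]
        exact Finset.card_image_le
      refine h8.trans (h3.trans ?_)
      have h9 : 1 - 2 * β₁ / 2 ^ n ≤ max 0 (1 - 2 * β) + ε / 2 := by
        have h10 : β - ε / 4 ≤ β₁ / 2 ^ n := by
          rw [le_div_iff₀ hN]
          have : ε / 4 ≤ ε / 4 * 2 ^ n := by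
            have : 0 < ε / 4 := by linarith
            nlinarith
          linarith
        have h11 := le_max_right 0 (1 - 2 * β)
        have h12 : 2 * β₁ / 2 ^ n = 2 * (β₁ / 2 ^ n) := by ring
        rw [h12]
        linarith
      calc C * (T : ℝ) ^ (1 - 2 * β₁ / 2 ^ n) * Real.log T ^ A
          ≤ |C| * (T : ℝ) ^ (max 0 (1 - 2 * β) + ε / 2) * (T : ℝ) ^ (ε / 2) := by
            have i1 : C * (T : ℝ) ^ (1 - 2 * β₁ / 2 ^ n) ≤ |C| * (T : ℝ) ^ (max 0 (1 - 2 * β) + ε / 2) := by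
              calc C * (T : ℝ) ^ (1 - 2 * β₁ / 2 ^ n) ≤ |C| * (T : ℝ) ^ (1 - 2 * β₁ / 2 ^ n) :=
                    mul_le_mul_of_nonneg_right (le_abs_self C) (by positivity)
                _ ≤ |C| * (T : ℝ) ^ (max 0 (1 - 2 * β) + ε / 2) :=
                    mul_le_mul_of_nonneg_left (Real.rpow_le_rpow_of_exponent_le (by linarith) h9) (abs_nonneg _)
            have i2 : 0 ≤ |C| * (T : ℝ) ^ (max 0 (1 - 2 * β) + ε / 2) := by positivity
            exact mul_le_mul i1 g1 (by positivity) i2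
        _ = |C| * (T : ℝ) ^ (max 0 (1 - 2 * β) + ε) := by
            rw [mul_assoc, ← Real.rpow_add hT0]
            congr 2
            ring)
    obtain ⟨Z, hZ, hg⟩ := Pool.Agent.Q138.PS.pow_alg_one Bad (max 0 (1 - 2 * β)) l (le_max_left _ _) hl hcount
    refine ⟨Z, hZ, fun α hα hαZ c hc hca j D => ?_⟩
    filter_upwards [hg α hα hαZ c hc hca j D] with k hk d hd hnear t
    by_contra hcon
    apply hk _ hnear
    rw [hBad]
    exact ⟨d, hd, rfl, t, not_le.1 hcon⟩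
  · choose Ck k' hk using hlog
    have key := Pool.Agent.Q138.PS.pow_ae_lt (ι := ℕ) (fun κ => {m : ℕ | ∃ d : ℤ, Squarefree d ∧ d.natAbs = m ∧ ∃ t : ℝ,
        (Real.log |(d : ℝ)| * (2 + |t|)) ^ (2 * k' (κ + 2)) < ‖F d (1 + t * I)‖}) (fun κ => ((κ + 2 : ℕ) : ℝ))
        (fun κ => Nat.cast_nonneg _) (fun κ => by
      refine Pool.Agent.Q138.PS.log_large _ _ (Ck (κ + 2) + 1) (Nat.cast_nonneg _) ?_
      have hs1 := (isLittleO_log_rpow_rpow_atTop (((κ + 2 : ℕ) : ℝ)) (show (0 : ℝ) < 1 / 2 by norm_num)).bound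
        (show (0 : ℝ) < 1 / 2 by norm_num)
      have hs2 := (tendsto_natCast_atTop_atTop (R := ℝ)).eventually hs1
      filter_upwards [hs2, eventually_ge_atTop 9] with T g1 g3
      have hT9 : (9 : ℝ) ≤ T := by exact_mod_cast g3
      have hT0 : (0 : ℝ) < T := by linarith
      have hlT2 : 2 ≤ Real.log T := by
        rw [Real.le_log_iff_exp_le hT0]
        have h1 : Real.exp 2 = Real.exp 1 * Real.exp 1 := by rw [← Real.exp_add]; norm_num
        rw [h1]
        nlinarith [Real.exp_one_lt_d9, Real.exp_pos 1]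
      have hlT : 0 < Real.log T := by linarith
      rw [Real.norm_of_nonneg (by positivity), Real.norm_of_nonneg (by positivity)] at g1
      obtain ⟨S, hS⟩ : ∃ S : Finset ℤ, S = (sqf T).filter (fun d => ∃ t : ℝ,
        (Real.log T * (2 + |t|)) ^ k' (κ + 2) < ‖F d (1 + t * I)‖) := ⟨_, rfl⟩
      have h3 := hk (κ + 2) T S (by omega) (by rw [hS]; exact Finset.filter_subset _ _) (fun d hd => by
        rw [hS, Finset.mem_filter] at hd
        exact hd.2)
      have hsub : {m : ℕ | m ∈ {m : ℕ | ∃ d : ℤ, Squarefree d ∧ d.natAbs = m ∧ ∃ t : ℝ,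
          (Real.log |(d : ℝ)| * (2 + |t|)) ^ (2 * k' (κ + 2)) < ‖F d (1 + t * I)‖} ∧ m ≤ T} ⊆
          (↑(S.image Int.natAbs ∪ Finset.range (Nat.sqrt T + 1)) : Set ℕ) := by
        rintro m ⟨⟨d, hd1, hd2, t, hd3⟩, h5⟩
        rw [Finset.coe_union, Finset.coe_image, Finset.coe_range]
        by_cases h6 : m < Nat.sqrt T + 1
        · exact Or.inr h6
        · left
          refine ⟨d, ?_, hd2⟩
          rw [hS, Finset.mem_coe, Finset.mem_filter, mem_sqf]
          refine ⟨⟨by rw [Int.abs_eq_natAbs, hd2]; exact_mod_cast h5, hd1⟩, t, lt_of_le_of_lt ?_ hd3⟩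
          have h7 : (|(d : ℝ)| : ℝ) = (m : ℝ) := by
            rw [← hd2, Nat.cast_natAbs, Int.cast_abs]
          rw [h7]
          have h8 : T < m ^ 2 := by
            have h9 := Nat.lt_succ_sqrt' T
            have h10 : Nat.sqrt T + 1 ≤ m := not_lt.1 h6
            calc T < (Nat.sqrt T).succ ^ 2 := h9
              _ ≤ m ^ 2 := Nat.pow_le_pow_left h10 2
          have h11 : Real.log T ≤ 2 * Real.log m := by
            have h12 : (T : ℝ) ≤ (m : ℝ) ^ 2 := by exact_mod_cast h8.le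
            calc Real.log T ≤ Real.log ((m : ℝ) ^ 2) := Real.log_le_log hT0 h12
              _ = 2 * Real.log m := by rw [Real.log_pow]; norm_num
          have ht : 2 ≤ 2 + |t| := by linarith [abs_nonneg t]
          have h13 : Real.log T * (2 + |t|) ≤ (Real.log m * (2 + |t|)) ^ 2 := by
            have h14 : Real.log T * (2 + |t|) ≤ 2 * (Real.log m * (2 + |t|)) := by nlinarith
            have h15 : 2 ≤ Real.log m * (2 + |t|) := by nlinarith
            nlinarith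
          rw [pow_mul]
          exact pow_le_pow_left₀ (by positivity) h13 _
      have h8 : (({m : ℕ | m ∈ {m : ℕ | ∃ d : ℤ, Squarefree d ∧ d.natAbs = m ∧ ∃ t : ℝ,
          (Real.log |(d : ℝ)| * (2 + |t|)) ^ (2 * k' (κ + 2)) < ‖F d (1 + t * I)‖} ∧ m ≤ T}).ncard : ℝ) ≤
          (S.card : ℝ) + (Nat.sqrt T + 1) := by
        have h9 := (Set.ncard_le_ncard hsub (Finset.finite_toSet _))
        rw [Set.ncard_coe_finset] at h9
        have h10 := h9.trans (Finset.card_union_le _ _)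
        rw [Finset.card_range] at h10
        have h11 : (S.image Int.natAbs).card ≤ S.card := Finset.card_image_le
        exact_mod_cast h10.trans (Nat.add_le_add_right h11 _)
      refine h8.trans ?_
      have h9 : (Nat.sqrt T : ℝ) + 1 ≤ 2 * (T : ℝ) ^ ((1 : ℝ) / 2) := by
        have i1 : (Nat.sqrt T : ℝ) ≤ √(T : ℝ) := Real.nat_sqrt_le_real_sqrt
        rw [← Real.sqrt_eq_rpow]
        have i2 : 1 ≤ √(T : ℝ) := Real.one_le_sqrt.2 (by linarith)
        linarith
      have h10 : (Real.log T) ^ (((κ + 2 : ℕ) : ℝ)) * (Real.log T) ^ (-((κ + 2 : ℕ) : ℝ)) = 1 := by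
        rw [← Real.rpow_add hlT, add_neg_cancel, Real.rpow_zero]
      have h11 : 0 < (Real.log T) ^ (-((κ + 2 : ℕ) : ℝ)) := Real.rpow_pos_of_pos hlT _
      have h12 : 2 * (T : ℝ) ^ ((1 : ℝ) / 2) ≤ T * (Real.log T) ^ (-((κ + 2 : ℕ) : ℝ)) := by
        have i1 : (T : ℝ) = (T : ℝ) ^ ((1 : ℝ) / 2) * (T : ℝ) ^ ((1 : ℝ) / 2) := by
          rw [← Real.rpow_add hT0]
          norm_num
        have i2 : 2 * (Real.log T) ^ (((κ + 2 : ℕ) : ℝ)) ≤ (T : ℝ) ^ ((1 : ℝ) / 2) := by linarith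
        calc 2 * (T : ℝ) ^ ((1 : ℝ) / 2) = (T : ℝ) ^ ((1 : ℝ) / 2) *
              (2 * (Real.log T) ^ (((κ + 2 : ℕ) : ℝ)) * (Real.log T) ^ (-((κ + 2 : ℕ) : ℝ))) := by
              rw [mul_assoc 2, h10]
              ring
          _ ≤ (T : ℝ) ^ ((1 : ℝ) / 2) * ((T : ℝ) ^ ((1 : ℝ) / 2) * (Real.log T) ^ (-((κ + 2 : ℕ) : ℝ))) := by gcongr
          _ = T * (Real.log T) ^ (-((κ + 2 : ℕ) : ℝ)) := by
              rw [← mul_assoc, ← i1]
      have h13 : Ck (κ + 2) * T / Real.log T ^ (κ + 2) = Ck (κ + 2) * T * (Real.log T) ^ (-((κ + 2 : ℕ) : ℝ)) := by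
        rw [Real.rpow_neg hlT.le, Real.rpow_natCast, div_eq_mul_inv]
      calc (S.card : ℝ) + (Nat.sqrt T + 1) ≤ Ck (κ + 2) * T * (Real.log T) ^ (-((κ + 2 : ℕ) : ℝ)) +
            T * (Real.log T) ^ (-((κ + 2 : ℕ) : ℝ)) := by
            rw [← h13]
            exact add_le_add h3 (h9.trans h12)
        _ = (Ck (κ + 2) + 1) * T * (Real.log T) ^ (-((κ + 2 : ℕ) : ℝ)) := by ring)
    filter_upwards [key] with α h3 hα κ
    refine ⟨2 * k' (κ + 2), fun c hc hca j D => ?_⟩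
    filter_upwards [h3 hα κ c hc hca j D κ (by push_cast; linarith)] with k hk1 d hd hnear t
    by_contra hcon
    exact hk1 _ hnear ⟨d, hd, rfl, t, not_le.1 hcon⟩

/-- **Theorem.** -/
theorem result : (∀ a b : ℤ, Fam a b → PowerLaw a b) ∧
    ∀ a b : ℤ, 4 * a ^ 3 + 27 * b ^ 2 ≠ 0 → TwistsModular a b → PowerLaw a b :=
  ⟨fun _ _ h => powerLaw_of (multiLindelof_fam h), fun _ _ hab h => powerLaw_of (multiLindelof_modular hab h)⟩

end Pool.Agent.Results.MP_21d687_nt.LindelofNearPowers
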