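import Mathlib
import Pool.Agent.Q84.MB.F5
import Pool.Agent.Y19.QT.ML

/-!
# The Lindelöf bound for the quadratic twists by the multiples of the primes of a string

`E : y² = x³ + a x + b` is an elliptic curve over `ℚ`, `K` a multiquadratic field of degree `2ⁿ` (`n = 0`: `K = ℚ`),
`F_d(s)` is `L(E_d/K, s)` without the Euler factors at the places dividing `2 (4a³ + 27b²) d ∏ e_i` (centre `s = 1`;
`K` is generated by square roots of the integers `e_i`), an entire function.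

There is a `B` with the following property. Let `β > 0`. There is a `δ > 0`, for every `m` a `c > 0` and for every `Z`
a number `C` such that for every large `X` there is a set `S` of at most `(log X) ^ (49 / 50)` primes, all larger than
`Z`, such that for EVERY function `f` with values `1` and `-1` on the primes (e.g. the signs of the coefficients `a_q`
of `E`, or the opposite signs) at least `X ^ (1 - δ)` integers `r`, `X < r ≤ 3X`, satisfy: the interval `[r, r + C]`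
contains at least `m` primes, and for every prime `p` in it

* the coefficient at `q` of the twist by `p` is `f q` times the coefficient at `q` of the curve itself, for all odd
  primes `q ≤ c log X` outside `S` and all curves `y² = x³ + a' x + b'`;
* the Lindelöf bound `|F_d(1 + i t)| ≤ p ^ β (2 + |t|) ^ B` holds for all real `t` and for ALL squarefree `d = k p`,
  `|k| ≤ p ^ δ`.

This holds without any hypothesis for all `E` with `j`-invariant `0` or `1728` and for all quadratic twists of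
`X₀(11)` and `X₀(14)`, and for every elliptic curve over `ℚ` whose quadratic twists are modular.
-/

set_option autoImplicit false

open scoped Classical

namespace Pool.Agent.Results.MP_21d687_nt.StringsOfLindelofTwists

open Complex NumberField Filter Topology Finset
open Pool.Agent.Y19.QT

/-- the Lindelöf bound `|F_d(1 + i t)| ≤ p ^ β (2 + |t|) ^ B` for all real `t` and all squarefree `d = k p`,
`|k| ≤ p ^ δ` -/
def Lindelof (F : ℤ → ℂ → ℂ) (B : ℕ) (β δ : ℝ) (p : ℕ) : Prop :=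
  ∀ k : ℤ, |(k : ℝ)| ≤ (p : ℝ) ^ δ → Squarefree (k * p) → ∀ t : ℝ,
    ‖F (k * p) (1 + t * I)‖ ≤ (p : ℝ) ^ β * (2 + |t|) ^ B

/-- the law for strings of primes, over all multiquadratic fields -/
def StringLaw (a b : ℤ) : Prop :=
  ∀ (n : ℕ) (e : Fin n → ℤ), Indep e → ∀ (K : Type) [Field K] [NumberField K] (x : Fin n → K),
    (∀ i, x i ^ 2 = (e i : K)) → IntermediateField.adjoin ℚ (Set.range x) = ⊤ →
    (∀ d : ℤ, Squarefree d → ∃! F : ℂ → ℂ, IsLFunK K (a * d ^ 2) (b * d ^ 3) (∏ i, e i) F) ∧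
    ∀ F : ℤ → ℂ → ℂ, (∀ d : ℤ, Squarefree d →
      IsLFunK K (a * d ^ 2) (b * d ^ 3) (∏ i, e i) (F d)) →
      ∃ B : ℕ, ∀ β : ℝ, 0 < β → ∃ δ : ℝ, 0 < δ ∧ ∀ m : ℕ, ∃ c : ℝ, 0 < c ∧ ∀ Z : ℕ, ∃ C : ℕ, ∃ X₀ : ℝ,
        ∀ X : ℝ, X₀ ≤ X →
        ∃ S : Finset ℕ, (∀ q ∈ S, q.Prime ∧ Z < q) ∧ (S.card : ℝ) ≤ (Real.log X) ^ (49 / 50 : ℝ) ∧
        ∀ f : ℕ → ℤ, (∀ q, f q = 1 ∨ f q = -1) →
          X ^ (1 - δ) ≤ (((Icc 1 ⌊3 * X⌋₊).filter fun r : ℕ => X < r ∧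
            m ≤ ((Icc r (r + C)).filter Nat.Prime).card ∧
            ∀ p ∈ Icc r (r + C), p.Prime → Lindelof F B β δ p ∧
              ∀ q : ℕ, q.Prime → q ≠ 2 → (q : ℝ) ≤ c * Real.log X → q ∉ S →
                ∀ a' b' : ℤ, ap (a' * p ^ 2) (b' * p ^ 3) q = f q * ap a' b' q).card : ℝ)

theorem stringLaw_of {a b : ℤ} (h : MultiLindelofLaw a b) : StringLaw a b := by
  intro n e he K _ _ x hx hK
  obtain ⟨h1, h2⟩ := h n e he K x hx hK
  refine ⟨h1, fun F hF => ?_⟩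
  obtain ⟨⟨C₁, A₁, B, -, hexc⟩, -⟩ := h2 F hF
  refine ⟨B, fun β hβ => ?_⟩
  obtain ⟨c₂, hc₂⟩ : ∃ c₂, c₂ = min ((β / 2) / 2 ^ n) 1 := ⟨_, rfl⟩
  have hc20 : 0 < c₂ := by rw [hc₂]; exact lt_min (by positivity) one_pos
  have hc21 : c₂ ≤ 1 := by rw [hc₂]; exact min_le_right _ _
  have hc2c : c₂ ≤ (β / 2) / 2 ^ n := by rw [hc₂]; exact min_le_left _ _
  obtain ⟨Bad, hBad⟩ : ∃ Bad : ℤ → ℤ → ℤ → ℕ → Prop, Bad = fun _ _ D (N : ℕ) => Squarefree D ∧ ∃ t : ℝ,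
    (N : ℝ) ^ (β / 2) * (2 + |t|) ^ B < ‖F D (1 + t * I)‖ := ⟨_, rfl⟩
  -- the constants
  have hlim : ∀ᶠ N : ℕ in atTop, C₁ * Real.log N ^ A₁ ≤ (N : ℝ) ^ c₂ := by
    have h3 := (isLittleO_log_rpow_rpow_atTop (A₁ : ℝ) hc20).const_mul_left C₁
    have h4 := (h3.bound (zero_lt_one)).filter_mono le_rfl
    have h5 := (tendsto_natCast_atTop_atTop (R := ℝ)).eventually h4
    filter_upwards [h5, eventually_ge_atTop 1] with N hN hN1
    have h6 : (0 : ℝ) ≤ (N : ℝ) ^ c₂ := by positivity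
    rw [Real.norm_eq_abs, Real.norm_eq_abs, one_mul, abs_of_nonneg h6, Real.rpow_natCast] at hN
    exact (le_abs_self _).trans hN
  obtain ⟨N₀, hN₀⟩ := eventually_atTop.1 hlim
  have hcnt : ∀ N : ℕ, max N₀ 3 ≤ N → ∀ A' B' : ℤ,
      ({D : ℤ | D ≠ 0 ∧ |D| ≤ N ∧ Bad A' B' D N}.ncard : ℝ) ≤ (N : ℝ) ^ (1 - c₂) := by
    intro N hN A' B'
    have hN3 : 3 ≤ N := (le_max_right _ _).trans hN
    have hN0 : (0 : ℝ) < N := by exact_mod_cast (by omega : 0 < N)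
    have hN1' : (1 : ℝ) ≤ N := by exact_mod_cast (by omega : 1 ≤ N)
    have h3 := hN₀ N ((le_max_left _ _).trans hN)
    obtain ⟨T, hT⟩ : ∃ T : Finset ℤ, T = (sqf N).filter fun D => ∃ t : ℝ,
      (N : ℝ) ^ (β / 2) * (2 + |t|) ^ B < ‖F D (1 + t * I)‖ := ⟨_, rfl⟩
    have h4 := hexc N (β / 2) T hN3 (by positivity) (by rw [hT]; exact filter_subset _ _) (by
      intro D hD
      rw [hT, mem_filter] at hD
      exact hD.2)
    have h5 : {D : ℤ | D ≠ 0 ∧ |D| ≤ N ∧ Bad A' B' D N} ⊆ (T : Set ℤ) := by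
      intro D hD
      obtain ⟨-, h6, h7⟩ := hD
      rw [hBad] at h7
      rw [hT, mem_coe, mem_filter, mem_sqf]
      exact ⟨⟨h6, h7.1⟩, h7.2⟩
    have h6 : ({D : ℤ | D ≠ 0 ∧ |D| ≤ N ∧ Bad A' B' D N}.ncard : ℝ) ≤ T.card := by
      have := Set.ncard_le_ncard h5 T.finite_toSet
      rw [Set.ncard_coe_finset] at this
      exact_mod_cast this
    refine h6.trans (h4.trans ?_)
    have h7 : (N : ℝ) ^ (1 - 2 * (β / 2) / 2 ^ n) ≤ (N : ℝ) ^ (1 - 2 * c₂) := by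
      apply Real.rpow_le_rpow_of_exponent_le hN1'
      have : 2 * (β / 2) / 2 ^ n = 2 * ((β / 2) / 2 ^ n) := by ring
      rw [this]
      linarith
    have hlog : 0 ≤ Real.log N := Real.log_nonneg hN1'
    by_cases hC : 0 ≤ C₁
    · calc C₁ * (N : ℝ) ^ (1 - 2 * (β / 2) / 2 ^ n) * Real.log N ^ A₁
          = (C₁ * Real.log N ^ A₁) * (N : ℝ) ^ (1 - 2 * (β / 2) / 2 ^ n) := by ring
        _ ≤ (N : ℝ) ^ c₂ * (N : ℝ) ^ (1 - 2 * c₂) := by
            apply mul_le_mul h3 h7 (by positivity) (by positivity)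
        _ = (N : ℝ) ^ (1 - c₂) := by
            rw [← Real.rpow_add hN0]
            congr 1
            ring
    · push Not at hC
      have h8 : 0 ≤ (N : ℝ) ^ (1 - 2 * (β / 2) / 2 ^ n) * Real.log N ^ A₁ := by positivity
      have h9 : 0 ≤ (N : ℝ) ^ (1 - c₂) := by positivity
      nlinarith
  obtain ⟨δ, hδ⟩ : ∃ δ, δ = c₂ / 8 := ⟨_, rfl⟩
  have hδ0 : 0 < δ := by rw [hδ]; positivity
  refine ⟨δ, hδ0, fun m => ?_⟩
  obtain ⟨c, hc, hmain⟩ := Pool.Agent.Q84.MB.sym_strings m δ hδ0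
  refine ⟨c, hc, fun Z => ?_⟩
  obtain ⟨C, hC⟩ := hmain Z
  obtain ⟨X₀, hX₀⟩ := eventually_atTop.1 ((hC.and (Pool.Agent.Q84.MB.twist_bad Bad c₂ hc20 hc21 _ hcnt)).and
    (eventually_ge_atTop (16 : ℝ)))
  refine ⟨C, X₀, fun X hX => ?_⟩
  obtain ⟨⟨⟨S, hS1, hS2, hS3⟩, hbad⟩, hX16⟩ := hX₀ X hX
  have hX1 : (1 : ℝ) ≤ X := by linarith
  refine ⟨S, hS1, hS2, fun f hf => ?_⟩
  have hP : (((Icc 1 ⌊4 * X⌋₊).filter fun p : ℕ => p.Prime ∧ X < p ∧ ¬ Lindelof F B β δ p).card : ℝ) ≤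
      X ^ (1 - δ) := by
    refine (hbad _ fun p hp => ?_).trans (Real.rpow_le_rpow_of_exponent_le hX1 (by rw [hδ]; linarith))
    rw [mem_filter, mem_Icc] at hp
    obtain ⟨⟨-, hp4⟩, hpp, hXp, hg⟩ := hp
    have hp4' : (p : ℝ) ≤ 4 * X := (Nat.le_floor_iff (by linarith)).1 hp4
    have hp1 : (1 : ℝ) ≤ p := hX1.trans hXp.le
    have hp0 : (0 : ℝ) < p := by linarith
    unfold Lindelof at hg
    push Not at hg
    obtain ⟨k, hk, hsq, t, ht⟩ := hg
    rw [hδ] at hk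
    have hk0 : k ≠ 0 := by
      rintro rfl
      rw [zero_mul] at hsq
      exact not_squarefree_zero hsq
    have h0 : |((0 : ℤ) : ℝ)| ≤ (p : ℝ) ^ (c₂ / 8) := by
      rw [Int.cast_zero, abs_zero]
      positivity
    refine ⟨hpp, hXp, hp4', 0, 0, k, h0, h0, hk0, hk, ?_⟩
    rw [hBad]
    refine ⟨hsq, t, lt_of_le_of_lt ?_ ht⟩
    apply mul_le_mul_of_nonneg_right _ (by positivity)
    have h3 : (Pool.Agent.Q84.MB.NN (c₂ / 8) X : ℝ) ≤ (p : ℝ) ^ (2 : ℝ) := by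
      unfold Pool.Agent.Q84.MB.NN
      refine (Nat.floor_le (by positivity)).trans ?_
      have h4 : (4 * X) ^ (1 + c₂ / 8) = 4 ^ (1 + c₂ / 8) * X ^ (1 + c₂ / 8) := Real.mul_rpow (by norm_num) (by linarith)
      have h5 : (4 : ℝ) ^ (1 + c₂ / 8) ≤ 4 ^ (3 / 2 : ℝ) := Real.rpow_le_rpow_of_exponent_le (by norm_num) (by linarith)
      have h6 : (4 : ℝ) ^ (3 / 2 : ℝ) = 8 := by
        rw [show (4 : ℝ) = 2 ^ (2 : ℝ) by norm_num, ← Real.rpow_mul (by norm_num)]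
        norm_num
      have h7 : X ^ (1 + c₂ / 8) ≤ X ^ (5 / 4 : ℝ) := Real.rpow_le_rpow_of_exponent_le hX1 (by linarith)
      have h8 : (8 : ℝ) ≤ X ^ (3 / 4 : ℝ) := by
        calc (8 : ℝ) = 16 ^ (3 / 4 : ℝ) := by
              rw [show (16 : ℝ) = 2 ^ (4 : ℝ) by norm_num, ← Real.rpow_mul (by norm_num)]
              norm_num
          _ ≤ X ^ (3 / 4 : ℝ) := Real.rpow_le_rpow (by norm_num) hX16 (by norm_num)
      calc (4 * X) ^ (1 + c₂ / 8) = 4 ^ (1 + c₂ / 8) * X ^ (1 + c₂ / 8) := h4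
        _ ≤ X ^ (3 / 4 : ℝ) * X ^ (5 / 4 : ℝ) :=
            mul_le_mul ((h5.trans h6.le).trans h8) h7 (by positivity) (by positivity)
        _ = X ^ (2 : ℝ) := by
            rw [← Real.rpow_add (by linarith)]
            norm_num
        _ ≤ (p : ℝ) ^ (2 : ℝ) := Real.rpow_le_rpow (by linarith) hXp.le (by norm_num)
    calc (Pool.Agent.Q84.MB.NN (c₂ / 8) X : ℝ) ^ (β / 2) ≤ ((p : ℝ) ^ (2 : ℝ)) ^ (β / 2) :=
          Real.rpow_le_rpow (by positivity) h3 (by positivity)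
      _ = (p : ℝ) ^ β := by
          rw [← Real.rpow_mul hp0.le]
          congr 1
          ring
  have h3 := hS3 f hf (Lindelof F B β δ) hP
  refine h3.trans ?_
  have hsub : ((Icc 1 ⌊3 * X⌋₊).filter fun r : ℕ => X < r ∧
        Pool.Agent.Q84.MB.SymStr m C (c * Real.log X) S f (Lindelof F B β δ) r) ⊆
      ((Icc 1 ⌊3 * X⌋₊).filter fun r : ℕ => X < r ∧
        m ≤ ((Icc r (r + C)).filter Nat.Prime).card ∧
        ∀ p ∈ Icc r (r + C), p.Prime → Lindelof F B β δ p ∧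
          ∀ q : ℕ, q.Prime → q ≠ 2 → (q : ℝ) ≤ c * Real.log X → q ∉ S →
            ∀ a' b' : ℤ, ap (a' * p ^ 2) (b' * p ^ 3) q = f q * ap a' b' q) := by
    intro r hr
    rw [mem_filter] at hr ⊢
    obtain ⟨h4, h5, h6, h7⟩ := hr
    refine ⟨h4, h5, h6, fun p hp hpp => ⟨(h7 p hp hpp).1, fun q hq hq2 hqy hqS a' b' => ?_⟩⟩
    have h8 := (h7 p hp hpp).2 q hq hq2 hqy hqS
    have : Fact q.Prime := ⟨hq⟩
    have hpq : ¬ (q : ℤ) ∣ (p : ℤ) := by
      intro h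
      have h9 : jacobiSym p q = 0 := by
        rw [← jacobiSym.legendreSym.to_jacobiSym, legendreSym.eq_zero_iff]
        exact (ZMod.intCast_zmod_eq_zero_iff_dvd _ _).2 h
      rw [h9] at h8
      rcases hf q with h10 | h10 <;> rw [h10] at h8 <;> exact absurd h8 (by decide)
    have h9 := Pool.Agent.Y705.QT.ap_twist a' b' p q hq hq2 hpq
    unfold Pool.Agent.H306R2.RZ.js at h9
    rw [h8] at h9
    exact_mod_cast h9
  exact_mod_cast card_le_card hsub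

theorem result : (∀ a b : ℤ, Fam a b → StringLaw a b) ∧
    ∀ a b : ℤ, 4 * a ^ 3 + 27 * b ^ 2 ≠ 0 → TwistsModular a b → StringLaw a b :=
  ⟨fun _ _ h => stringLaw_of (multiLindelof_fam h),
    fun _ _ hab h => stringLaw_of (multiLindelof_modular hab h)⟩

end Pool.Agent.Results.MP_21d687_nt.StringsOfLindelofTwists
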